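import Pool.Agent.helper70.LE.SpecN

/-!
# Project LE (MP_baa4d7_al), row REC: the recursion
-/

set_option autoImplicit false

namespace Pool.Agent.LE

open Pool.Agent.helper58.DC Pool.Agent.DI Pool.Agent.GR Pool.Agent.OB Pool.Agent.DR Pool.Agent.FI Pool.Agent.FI3 Pool.Agent.FI4

theorem REC_fs {α : Type} [Fintype α] (P : α → Prop) [DecidablePred P] (F : α → ℂ) :
    ∑ᶠ g ∈ {g : α | P g}, F g = ∑ g, if P g then F g else 0 := by
  rw [finsum_eq_sum_of_fintype]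
  refine Finset.sum_congr rfl fun g _ => ?_
  exact finsum_eq_if

theorem REC_cj {G : Type} [Group G] {L : Subgroup G} {a l : G} (ha : ∀ x, x ∈ L ↔ a⁻¹ * x * a ∈ L)
    (hl : l ∈ L) (v : G) : a⁻¹ * (l * v * l⁻¹) ∈ L ↔ a⁻¹ * v ∈ L := by
  have h1 : a⁻¹ * (l * v * l⁻¹) = (a⁻¹ * l * a) * (a⁻¹ * v) * l⁻¹ := by group
  rw [h1, Subgroup.mul_mem_cancel_right _ (L.inv_mem hl),
    Subgroup.mul_mem_cancel_left _ ((ha l).1 hl)]

theorem REC_nz {G : Type} [Group G] {Q : Subgroup G} {a : G} (ha : a ∈ nz Q) (x : G) :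
    x ∈ cz Q ↔ a⁻¹ * x * a ∈ cz Q := by
  constructor
  · intro h
    have h1 := cz_conj ((nz Q).inv_mem ha) h
    rwa [inv_inv] at h1
  · intro h
    have h1 := cz_conj ha h
    have h2 : a * (a⁻¹ * x * a) * a⁻¹ = x := by group
    rwa [h2] at h1

theorem REC_preg {G : Type} [Group G] {p : ℕ} (l v : G) : PReg p (l * v * l⁻¹) ↔ PReg p v := by
  unfold PReg
  have h : orderOf (l * v * l⁻¹) = orderOf v := by
    have := orderOf_injective (MulAut.conj l).toMonoidHom (MulAut.conj l).injective v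
    simpa using this
  rw [h]

theorem REC_W {G : Type} [Group G] [Finite G] {L : Subgroup G} {p : ℕ} {a y l : G}
    (ha : ∀ x, x ∈ L ↔ a⁻¹ * x * a ∈ L) (hy : ∀ x, x ∈ L ↔ y⁻¹ * x * y ∈ L) (hl : l ∈ L) (u₀ : G)
    (g : G → ℂ) :
    ∑ᶠ v ∈ {v : G | a⁻¹ * v ∈ L ∧ v * (l * u₀ * l⁻¹) = (l * u₀ * l⁻¹) * v ∧ PReg p v},
      ∑ᶠ z ∈ {z : G | y⁻¹ * z ∈ L ∧ (l * u₀ * l⁻¹) * z = z * (l * u₀ * l⁻¹)},
        g (l⁻¹ * (v * z * v⁻¹ * z⁻¹) * l) =
    ∑ᶠ v ∈ {v : G | a⁻¹ * v ∈ L ∧ v * u₀ = u₀ * v ∧ PReg p v},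
      ∑ᶠ z ∈ {z : G | y⁻¹ * z ∈ L ∧ u₀ * z = z * u₀}, g (v * z * v⁻¹ * z⁻¹) := by
  classical
  have := Fintype.ofFinite G
  simp only [REC_fs]
  have hc : ∀ v : G, (l * v * l⁻¹) * (l * u₀ * l⁻¹) = (l * u₀ * l⁻¹) * (l * v * l⁻¹) ↔ v * u₀ = u₀ * v := by
    intro v
    have h1 : (l * v * l⁻¹) * (l * u₀ * l⁻¹) = l * (v * u₀) * l⁻¹ := by group
    have h2 : (l * u₀ * l⁻¹) * (l * v * l⁻¹) = l * (u₀ * v) * l⁻¹ := by group
    rw [h1, h2]
    simp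
  rw [← Equiv.sum_comp (MulAut.conj l).toEquiv]
  refine Finset.sum_congr rfl fun v _ => ?_
  have e1 : (MulAut.conj l).toEquiv v = l * v * l⁻¹ := rfl
  rw [e1]
  have e2 : (a⁻¹ * (l * v * l⁻¹) ∈ L ∧ (l * v * l⁻¹) * (l * u₀ * l⁻¹) = (l * u₀ * l⁻¹) * (l * v * l⁻¹) ∧
      PReg p (l * v * l⁻¹)) ↔ (a⁻¹ * v ∈ L ∧ v * u₀ = u₀ * v ∧ PReg p v) := by
    rw [REC_cj ha hl, hc, REC_preg]
  rw [if_congr e2 rfl rfl]
  split_ifs
  · rw [← Equiv.sum_comp (MulAut.conj l).toEquiv]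
    refine Finset.sum_congr rfl fun z _ => ?_
    have e3 : (MulAut.conj l).toEquiv z = l * z * l⁻¹ := rfl
    rw [e3]
    have e4 : (y⁻¹ * (l * z * l⁻¹) ∈ L ∧ (l * u₀ * l⁻¹) * (l * z * l⁻¹) = (l * z * l⁻¹) * (l * u₀ * l⁻¹)) ↔
        (y⁻¹ * z ∈ L ∧ u₀ * z = z * u₀) := by
      rw [REC_cj hy hl, eq_comm, hc, eq_comm (a := z * u₀)]
    rw [if_congr e4 rfl rfl]
    have e5 : l⁻¹ * (l * v * l⁻¹ * (l * z * l⁻¹) * (l * v * l⁻¹)⁻¹ * (l * z * l⁻¹)⁻¹) * l =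
        v * z * v⁻¹ * z⁻¹ := by group
    rw [e5]
  · rfl

theorem REC_card {G : Type} [Group G] {L : Subgroup G} {l : G} (hl : l ∈ L) (u₀ : G) :
    Nat.card (Cz L (l * u₀ * l⁻¹)) = Nat.card (Cz L u₀) := by
  have h1 := cj_Cz l L u₀
  rw [cj_self hl] at h1
  rw [h1, card_cj]

theorem REC (hPPT : PPT_stmt) (hPPL : PPL_stmt) (hSCU : SCU_stmt) (hEUX : EUX_stmt) (hTRM : TRM_stmt) : REC_stmt := by
  intro p M hS G _ _ D x θ χ hA Q hQ hRP a ha haQ y hy hyQ hay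
  classical
  have := Fintype.ofFinite G
  have hDL : D ≤ cz Q := (le_cz_of_com hA.rt.com).trans (cz_mono hQ)
  have hca := REC_nz haQ
  have hcy := REC_nz hyQ
  have hDp : IsPGroup p D := hA.rt.dfa.pgrp
  have hPD : ∀ u ∈ D, PEl p u := by
    intro u hu
    obtain ⟨k, hk⟩ := hDp ⟨u, hu⟩
    exact ⟨k, by simpa [Subtype.ext_iff] using hk⟩
  set L : Subgroup G := cz Q with hL
  have hL0 : (Nat.card L : ℂ) ≠ 0 := by exact_mod_cast Nat.card_pos.ne'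
  -- the functions
  let W : G → ℂ := fun u => ∑ᶠ v ∈ {v : G | a⁻¹ * v ∈ L ∧ v * u = u * v ∧ PReg p v},
    ∑ᶠ z ∈ {z : G | y⁻¹ * z ∈ L ∧ u * z = z * u}, eS (Cz L u) (BlC M L θ u) (v * z * v⁻¹ * z⁻¹)
  let W' : G → ℂ := fun u => ∑ᶠ v ∈ {v : G | a⁻¹ * v ∈ L ∧ v * u = u * v ∧ PReg p v},
    ∑ᶠ z ∈ {z : G | y⁻¹ * z ∈ L ∧ u * z = z * u}, eBl M (Cz L u) θ (v * z * v⁻¹ * z⁻¹)
  let S : G → ℂ := fun g => ∑ᶠ z ∈ {z : G | y⁻¹ * z ∈ L}, eBl M L θ (g * z * g⁻¹ * z⁻¹)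
  -- step 1
  have st1 : ∑ᶠ g ∈ {g : G | a⁻¹ * g ∈ L}, S g = ∑ᶠ u ∈ {u : G | u ∈ L ∧ PEl p u}, W u := by
    have h1 : ∑ᶠ g ∈ {g : G | a⁻¹ * g ∈ L}, S g =
        ∑ᶠ g ∈ ((⊤ : Subgroup G) : Set G), if a⁻¹ * g ∈ L then S g else 0 := by
      rw [REC_fs]
      have : ((⊤ : Subgroup G) : Set G) = {g : G | True} := by ext; simp
      rw [this, REC_fs]
      simp
    rw [h1, hPPT p hS.pr G ⊤, REC_fs, REC_fs]
    refine Finset.sum_congr rfl fun u _ => ?_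
    by_cases hu : PEl p u
    · rw [if_pos ⟨Subgroup.mem_top _, hu⟩]
      by_cases huL : u ∈ L
      · rw [if_pos ⟨huL, hu⟩]
        change _ = ∑ᶠ v ∈ {v : G | a⁻¹ * v ∈ L ∧ v * u = u * v ∧ PReg p v}, _
        rw [REC_fs, REC_fs]
        refine Finset.sum_congr rfl fun v _ => ?_
        by_cases hv : v * u = u * v ∧ PReg p v
        · rw [if_pos ⟨mem_Cz.2 ⟨Subgroup.mem_top _, hv.1.symm⟩, hv.2⟩]
          have h2 : a⁻¹ * (u * v) ∈ L ↔ a⁻¹ * v ∈ L := by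
            have h3 : a⁻¹ * (u * v) = (a⁻¹ * u * a) * (a⁻¹ * v) := by group
            rw [h3, Subgroup.mul_mem_cancel_left _ ((hca u).1 huL)]
          by_cases hav : a⁻¹ * v ∈ L
          · rw [if_pos (h2.2 hav), if_pos ⟨hav, hv⟩]
            exact hSCU p M hS G D x θ χ hA Q hQ a ha haQ y hy hyQ hay u huL hu v hv.2 hv.1.symm hav
          · rw [if_neg (fun h => hav (h2.1 h)), if_neg (fun h => hav h.1)]
        · rw [if_neg (fun h => hv ⟨(mem_Cz.1 h.1).2.symm, h.2⟩), if_neg (fun h => hv h.2)]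
      · rw [if_neg (fun h => huL h.1), REC_fs]
        refine Finset.sum_eq_zero fun v _ => ?_
        split_ifs with hv hav
        · exact absurd (hPPL p M hS G D x θ χ hA Q hQ a ha haQ u v hu hv.2 (mem_Cz.1 hv.1).2 hav).1 huL
        · rfl
        · rfl
    · rw [if_neg (fun h => hu h.2), if_neg (fun h => hu h.2)]
  -- step 2
  have st2 : ∀ u ∈ L, PEl p u → (Nat.card (Cz L u) : ℂ) * W u =
      ∑ᶠ q ∈ {q : G × G | q.1 ∈ L ∧ q.2 ∈ D ∧ q.1 * q.2 * q.1⁻¹ = u}, W' q.2 := by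
    intro u huL hu
    have hE := hEUX p M hS G D x θ χ hA Q hQ hRP u huL hu
    rw [← hL] at hE
    have h1 : (Nat.card (Cz L u) : ℂ) * W u = ∑ v, if a⁻¹ * v ∈ L ∧ v * u = u * v ∧ PReg p v then
        ∑ z, (if y⁻¹ * z ∈ L ∧ u * z = z * u then
          ∑ q : G × G, (if q.1 ∈ L ∧ q.2 ∈ D ∧ q.1 * q.2 * q.1⁻¹ = u then
            eBl M (Cz L q.2) θ (q.1⁻¹ * (v * z * v⁻¹ * z⁻¹) * q.1) else 0) else 0) else 0 := by
      change (Nat.card (Cz L u) : ℂ) * ∑ᶠ v ∈ {v : G | a⁻¹ * v ∈ L ∧ v * u = u * v ∧ PReg p v}, _ = _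
      rw [REC_fs, Finset.mul_sum]
      refine Finset.sum_congr rfl fun v _ => ?_
      rw [mul_ite, mul_zero]
      refine if_congr Iff.rfl ?_ rfl
      rw [REC_fs, Finset.mul_sum]
      refine Finset.sum_congr rfl fun z _ => ?_
      rw [mul_ite, mul_zero]
      refine if_congr Iff.rfl ?_ rfl
      rw [hE, REC_fs]
    have h2 : ∀ q : G × G, q.1 ∈ L ∧ q.2 ∈ D ∧ q.1 * q.2 * q.1⁻¹ = u → W' q.2 =
        ∑ v, if a⁻¹ * v ∈ L ∧ v * u = u * v ∧ PReg p v then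
        ∑ z, (if y⁻¹ * z ∈ L ∧ u * z = z * u then
            eBl M (Cz L q.2) θ (q.1⁻¹ * (v * z * v⁻¹ * z⁻¹) * q.1) else 0) else 0 := by
      rintro ⟨l, u₀⟩ ⟨hl, -, rfl⟩
      have h3 := REC_W (p := p) hca hcy hl u₀ (eBl M (Cz L u₀) θ)
      simp only [REC_fs] at h3
      change (∑ᶠ v ∈ {v : G | a⁻¹ * v ∈ L ∧ v * u₀ = u₀ * v ∧ PReg p v}, _) = _
      simp only [REC_fs]
      exact h3.symm
    rw [h1, REC_fs]
    have h3 : ∀ q : G × G, (if q.1 ∈ L ∧ q.2 ∈ D ∧ q.1 * q.2 * q.1⁻¹ = u then W' q.2 else 0) =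
        ∑ v, ∑ z, if (a⁻¹ * v ∈ L ∧ v * u = u * v ∧ PReg p v) ∧ (y⁻¹ * z ∈ L ∧ u * z = z * u) ∧
          (q.1 ∈ L ∧ q.2 ∈ D ∧ q.1 * q.2 * q.1⁻¹ = u) then
          eBl M (Cz L q.2) θ (q.1⁻¹ * (v * z * v⁻¹ * z⁻¹) * q.1) else 0 := by
      intro q
      split_ifs with hq
      · rw [h2 q hq]
        refine Finset.sum_congr rfl fun v _ => ?_
        split_ifs with hv
        · refine Finset.sum_congr rfl fun z _ => ?_
          split_ifs with hz h h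
          · rfl
          · exact absurd ⟨hv, hz, hq⟩ h
          · exact absurd h.2.1 hz
          · rfl
        · symm
          refine Finset.sum_eq_zero fun z _ => ?_
          rw [if_neg (fun h => hv h.1)]
      · symm
        refine Finset.sum_eq_zero fun v _ => Finset.sum_eq_zero fun z _ => ?_
        rw [if_neg (fun h => hq h.2.2)]
    simp only [h3]
    rw [Finset.sum_comm]
    refine Finset.sum_congr rfl fun v _ => ?_
    rw [Finset.sum_comm]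
    split_ifs with hv
    · refine Finset.sum_congr rfl fun z _ => ?_
      split_ifs with hz
      · refine Finset.sum_congr rfl fun q _ => ?_
        split_ifs with hq h h
        · rfl
        · exact absurd ⟨hv, hz, hq⟩ h
        · exact absurd h.2.2 hq
        · rfl
      · symm
        refine Finset.sum_eq_zero fun q _ => ?_
        rw [if_neg (fun h => hz h.2.1)]
    · symm
      refine Finset.sum_eq_zero fun z _ => Finset.sum_eq_zero fun q _ => ?_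
      rw [if_neg (fun h => hv h.1)]
  -- step 3
  let c : G → ℂ := fun u₀ => W' u₀ / Nat.card (Cz L u₀)
  have st3 : ∀ u ∈ L, PEl p u → W u =
      ∑ q : G × G, if q.1 ∈ L ∧ q.2 ∈ D ∧ q.1 * q.2 * q.1⁻¹ = u then c q.2 else 0 := by
    intro u huL hu
    have h0 : (Nat.card (Cz L u) : ℂ) ≠ 0 := by exact_mod_cast Nat.card_pos.ne'
    have h1 := st2 u huL hu
    rw [REC_fs] at h1
    refine mul_left_cancel₀ h0 ?_
    rw [h1, Finset.mul_sum]
    refine Finset.sum_congr rfl fun q _ => ?_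
    split_ifs with hq
    · have h2 : (Nat.card (Cz L u) : ℂ) = Nat.card (Cz L q.2) := by
        rw [← hq.2.2, REC_card hq.1]
      change W' q.2 = _ * (W' q.2 / Nat.card (Cz L q.2))
      rw [← h2]
      field_simp
    · rw [mul_zero]
  -- step 4
  have st4 : ∑ᶠ u ∈ {u : G | u ∈ L ∧ PEl p u}, W u =
      (Nat.card L : ℂ) * ∑ u₀, if u₀ ∈ D then c u₀ else 0 := by
    rw [REC_fs]
    have h1 : ∀ u : G, (if u ∈ L ∧ PEl p u then W u else 0) =
        ∑ q : G × G, if q.1 ∈ L ∧ q.2 ∈ D ∧ q.1 * q.2 * q.1⁻¹ = u then c q.2 else 0 := by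
      intro u
      split_ifs with hu
      · exact st3 u hu.1 hu.2
      · symm
        refine Finset.sum_eq_zero fun q _ => ?_
        rw [if_neg]
        rintro ⟨h2, h3, rfl⟩
        refine hu ⟨L.mul_mem (L.mul_mem h2 (hDL h3)) (L.inv_mem h2), ?_⟩
        obtain ⟨k, hk⟩ := hPD _ h3
        refine ⟨k, ?_⟩
        rw [conj_pow, hk]
        group
    simp only [h1]
    rw [Finset.sum_comm]
    have h2 : ∀ q : G × G, (∑ u, if q.1 ∈ L ∧ q.2 ∈ D ∧ q.1 * q.2 * q.1⁻¹ = u then c q.2 else 0) =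
        if q.1 ∈ L ∧ q.2 ∈ D then c q.2 else 0 := by
      intro q
      rw [Finset.sum_eq_single (q.1 * q.2 * q.1⁻¹)]
      · refine if_congr ?_ rfl rfl
        simp
      · intro b _ hb
        rw [if_neg]
        rintro ⟨-, -, h⟩
        exact hb h.symm
      · intro h
        exact absurd (Finset.mem_univ _) h
    simp only [h2]
    rw [Fintype.sum_prod_type]
    have h3 : ∀ l : G, (∑ u₀, if (l, u₀).1 ∈ L ∧ (l, u₀).2 ∈ D then c (l, u₀).2 else 0) =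
        if l ∈ L then ∑ u₀, (if u₀ ∈ D then c u₀ else 0) else 0 := by
      intro l
      split_ifs with hl
      · refine Finset.sum_congr rfl fun u₀ _ => ?_
        refine if_congr ?_ rfl rfl
        simp [hl]
      · refine Finset.sum_eq_zero fun u₀ _ => ?_
        rw [if_neg (fun h => hl h.1)]
    simp only [h3]
    rw [← Finset.sum_filter, Finset.sum_const, nsmul_eq_mul]
    congr 1
    rw [Nat.card_eq_fintype_card, Fintype.card_subtype]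
  -- step 5
  have st5 : ∀ u₀ ∈ D, c u₀ = if a * u₀ = u₀ * a ∧ y * u₀ = u₀ * y then
      om p (Cz L u₀) (eBl M (Cz L u₀) θ) a y else 0 := by
    intro u₀ hu
    have h0 : (Nat.card (Cz L u₀) : ℂ) ≠ 0 := by exact_mod_cast Nat.card_pos.ne'
    obtain ⟨h1, h2⟩ := hTRM p M hS G D x θ χ hA Q hQ hRP a ha haQ y hy hyQ hay u₀ hu
    rw [← hL] at h1 h2
    change W' u₀ / _ = _
    split_ifs with h
    · have h3 : W' u₀ = _ := h1 h
      rw [h3]
      field_simp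
    · have h3 : W' u₀ = _ := h2 h
      rw [h3, zero_div]
  have hta : ta L (eBl M L θ) a y = (∑ᶠ g ∈ {g : G | a⁻¹ * g ∈ L}, S g) / Nat.card L := rfl
  rw [hta, st1, st4, mul_div_cancel_left₀ _ hL0, REC_fs]
  refine Finset.sum_congr rfl fun u₀ _ => ?_
  by_cases hu : u₀ ∈ D
  · rw [if_pos hu, st5 u₀ hu]
    refine if_congr ?_ rfl rfl
    simp [hu]
  · rw [if_neg hu, if_neg (fun h => hu h.1)]

end Pool.Agent.LE
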